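import Pool.Agent.Q7.LS.Stm
import Pool.Agent.Q65.LK.LOCV

/-! Project LS (helper7), job DEP, part 1: valuations, residue classes at the primes of a finite set. -/

set_option autoImplicit false
set_option linter.unusedSectionVars false

namespace Pool.Agent.Q190.LS.D

open NumberField IsDedekindDomain Filter Topology Finset
open Pool.Agent.Q7.LK Pool.Agent.Q7.LS
open Pool.Agent.Q65.LK (ord_above)

section

variable {F : Type} [Field F] [NumberField F] {L : Type} [Field L] [NumberField L] [Algebra F L]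

theorem liesOver {v : HeightOneSpectrum (𝓞 F)} {P : HeightOneSpectrum (𝓞 L)} (h : Ab v P) :
    P.asIdeal.LiesOver v.asIdeal := by
  refine ⟨?_⟩
  have hm := v.isMaximal
  have hp := P.isPrime
  refine hm.eq_of_le (Ideal.IsPrime.under (𝓞 F) P.asIdeal).ne_top ?_
  exact Ideal.map_le_iff_le_comap.1 h

theorem val_up {v : HeightOneSpectrum (𝓞 F)} {P : HeightOneSpectrum (𝓞 L)} (h : Ab v P) :
    ∃ e : ℕ, e ≠ 0 ∧ ∀ x : F, P.valuation L (algebraMap F L x) = v.valuation F x ^ e := by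
  have := liesOver h
  refine ⟨v.asIdeal.ramificationIdx' P.asIdeal, ?_, fun x => (HeightOneSpectrum.valuation_liesOver L v P x).symm⟩
  exact Ideal.IsDedekindDomain.ramificationIdx'_ne_zero_of_liesOver P.asIdeal v.ne_bot

theorem le_up {v : HeightOneSpectrum (𝓞 F)} {P : HeightOneSpectrum (𝓞 L)} (h : Ab v P) {x y : F}
    (hxy : v.valuation F x ≤ v.valuation F y) :
    P.valuation L (algebraMap F L x) ≤ P.valuation L (algebraMap F L y) := by
  obtain ⟨e, _, he⟩ := val_up h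
  rw [he, he]
  exact pow_le_pow_left' hxy e

theorem one_up {v : HeightOneSpectrum (𝓞 F)} {P : HeightOneSpectrum (𝓞 L)} (h : Ab v P) {x : F}
    (hx : v.valuation F x = 1) : P.valuation L (algebraMap F L x) = 1 := by
  obtain ⟨e, _, he⟩ := val_up h
  rw [he, hx, one_pow]

theorem exists_under (P : HeightOneSpectrum (𝓞 L)) : ∃ v : HeightOneSpectrum (𝓞 F), Ab v P := by
  have hp := P.isPrime
  refine ⟨⟨P.asIdeal.under (𝓞 F), Ideal.IsPrime.under (𝓞 F) P.asIdeal, ?_⟩, ?_⟩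
  · exact Ideal.IsIntegral.comap_ne_bot (𝓞 F) P.ne_bot
  · exact Ideal.map_comap_le

theorem val_p_lt {p : ℕ} {K : Type} [Field K] [NumberField K] (v : HeightOneSpectrum (𝓞 K)) (h : Dp p v) :
    v.valuation K (p : K) < 1 := by
  have h1 : v.valuation K (algebraMap (𝓞 K) K (p : 𝓞 K)) < 1 := (v.valuation_lt_one_iff_mem _).2 h
  rwa [map_natCast] at h1

theorem Dp_up {p : ℕ} {v : HeightOneSpectrum (𝓞 F)} {P : HeightOneSpectrum (𝓞 L)} (h : Ab v P) (hv : Dp p v) :
    Dp p P := by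
  have h1 : algebraMap (𝓞 F) (𝓞 L) (p : 𝓞 F) ∈ v.asIdeal.map (algebraMap (𝓞 F) (𝓞 L)) :=
    Ideal.mem_map_of_mem _ hv
  rw [map_natCast] at h1
  exact h h1

theorem Dp_down {p : ℕ} {v : HeightOneSpectrum (𝓞 F)} {P : HeightOneSpectrum (𝓞 L)} (h : Ab v P) (hv : Dp p P) :
    Dp p v := by
  have h2 := liesOver h
  have h1 : (p : 𝓞 F) ∈ P.asIdeal.under (𝓞 F) := by
    rw [Ideal.under_def, Ideal.mem_comap, map_natCast]
    exact hv
  rw [← h2.over] at h1
  exact h1

end

/-! ### the `p`-th power map -/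

theorem val_pow_sub {K : Type} [Field K] [CharZero K] (w : Valuation K (WithZero (Multiplicative ℤ))) {p : ℕ}
    (hp0 : p ≠ 0) (hp : w (p : K) < 1) {x : K} (hx : w (x - 1) ≤ w ((p : K) ^ 2)) :
    w (x ^ p - 1) = w (x - 1) * w (p : K) := by
  have hpK : (p : K) ≠ 0 := Nat.cast_ne_zero.2 hp0
  have hwp : 0 < w (p : K) := zero_lt_iff.2 ((Valuation.ne_zero_iff _).2 hpK)
  have h2 : w ((p : K) ^ 2) < w (p : K) := by
    rw [map_pow, sq]
    calc w (p : K) * w (p : K) < w (p : K) * 1 := mul_lt_mul_of_pos_left hp hwp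
      _ = w (p : K) := mul_one _
  have hxlt : w (x - 1) < w (p : K) := lt_of_le_of_lt hx h2
  have hx1 : w x = 1 := by
    have h3 := Valuation.map_one_add_of_lt (v := w) (x := x - 1) (hxlt.trans hp)
    rwa [add_sub_cancel] at h3
  have hS : w (∑ i ∈ range p, x ^ i) = w (p : K) := by
    have h4 : ∑ i ∈ range p, x ^ i = (p : K) + ∑ i ∈ range p, (x ^ i - 1) := by
      rw [sum_sub_distrib, sum_const, card_range, nsmul_eq_mul, mul_one]
      ring
    rw [h4]
    apply Valuation.map_add_eq_of_lt_left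
    apply Valuation.map_sum_lt
    · exact hwp.ne'
    · intro i _
      have h5 : x ^ i - 1 = (x - 1) * ∑ j ∈ range i, x ^ j := (mul_geom_sum x i).symm
      rw [h5, map_mul]
      refine lt_of_le_of_lt ?_ hxlt
      refine mul_le_of_le_one_right' ?_
      refine Valuation.map_sum_le _ fun j _ => ?_
      rw [map_pow, hx1, one_pow]
  rw [← mul_geom_sum, map_mul, hS]

/-! ### the ideal -/

section A

variable {F : Type} [Field F] [NumberField F]

theorem fin_Dp (p : ℕ) [Fact p.Prime] : {v : HeightOneSpectrum (𝓞 F) | Dp p v}.Finite := by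
  have hp : (Ideal.span {(p : 𝓞 F)}) ≠ ⊥ := by
    rw [Ne, Ideal.span_singleton_eq_bot]
    exact Nat.cast_ne_zero.2 (Fact.out : p.Prime).ne_zero
  refine (Ideal.finite_factors hp).subset ?_
  intro v hv
  show v.asIdeal ∣ Ideal.span {(p : 𝓞 F)}
  rw [Ideal.dvd_span_singleton]
  exact hv

/-- the `T`-part of `p` -/
noncomputable def AA (Tf : Finset (HeightOneSpectrum (𝓞 F))) : Ideal (𝓞 F) :=
  ∏ v ∈ Tf, v.asIdeal ^ v.asIdeal.ramificationIdx ℤ

theorem mem_AA (p : ℕ) [Fact p.Prime] (Tf : Finset (HeightOneSpectrum (𝓞 F))) (hT : ∀ v ∈ Tf, Dp p v) (k : ℕ)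
    (x : 𝓞 F) : x ∈ AA Tf ^ k ↔ ∀ v ∈ Tf, v.valuation F (x : F) ≤ v.valuation F ((p : F) ^ k) := by
  have h1 : AA Tf ^ k = Tf.inf fun v => v.asIdeal ^ (v.asIdeal.ramificationIdx ℤ * k) := by
    rw [IsDedekindDomain.inf_pow_eq_prod_of_prime Tf (fun v => v.asIdeal) (fun v => v.asIdeal.ramificationIdx ℤ * k)
      (fun v _ => v.prime) (fun v _ w _ hvw h => hvw (HeightOneSpectrum.ext h)), AA, ← prod_pow]
    refine prod_congr rfl fun v _ => ?_
    rw [pow_mul]
  rw [h1, Submodule.mem_finsetInf]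
  refine forall₂_congr fun v hv => ?_
  rw [← v.intValuation_le_pow_iff_mem, map_pow, ord_above p v (hT v hv), ← WithZero.exp_nsmul]
  rw [show v.valuation F (x : F) = v.intValuation x from v.valuation_of_algebraMap x]
  rw [nsmul_eq_mul]
  push_cast
  rw [show ((k : ℤ) * -(v.asIdeal.ramificationIdx ℤ : ℤ)) = -((v.asIdeal.ramificationIdx ℤ : ℤ) * k) by ring]

theorem AA_ne (Tf : Finset (HeightOneSpectrum (𝓞 F))) : AA Tf ≠ ⊥ := by
  unfold AA
  rw [← Ideal.zero_eq_bot, prod_ne_zero_iff]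
  intro v _
  exact pow_ne_zero _ v.ne_bot

theorem norm_AA (p : ℕ) [Fact p.Prime] (Tf : Finset (HeightOneSpectrum (𝓞 F))) (hT : ∀ v ∈ Tf, Dp p v) :
    Ideal.absNorm (AA Tf) = p ^ ∑ v ∈ Tf, dv p v := by
  unfold AA
  rw [map_prod, ← prod_pow_eq_pow_sum]
  refine prod_congr rfl fun v hv => ?_
  have hl := Pool.Agent.Q65.LK.lies p v (hT v hv)
  have h3 : Ideal.absNorm v.asIdeal = p ^ v.asIdeal.inertiaDeg ℤ := by
    have := v.isPrime
    exact (Ideal.pow_inertiaDeg p v.asIdeal).symm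
  rw [map_pow, h3, ← pow_mul]
  unfold dv
  rw [if_pos (hT v hv), mul_comm]

theorem dT_eq (p : ℕ) [Fact p.Prime] {T : Set (HeightOneSpectrum (𝓞 F))} (hT : T.Finite) :
    dT p T = ∑ v ∈ hT.toFinset, dv p v := by
  unfold dT
  rw [finsum_set_coe_eq_finsum_mem, finsum_mem_eq_finite_toFinset_sum _ hT]

end A

end Pool.Agent.Q190.LS.D
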