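import Pool.Agent.Q283.LS.Stm2

/-! # Project LS (helper283), job QQ: the arithmetic of `ℚ` -/

set_option autoImplicit false

namespace Pool.Agent.Q190.LS

open NumberField IsDedekindDomain Pool.Agent.Q283.LQ Pool.Agent.Q283.LS

variable {F : Type} [Field F] [NumberField F]

/-- the integers of a field isomorphic to `ℚ` -/
noncomputable def eInt (g : F ≃+* ℚ) : 𝓞 F ≃+* ℤ := (RingOfIntegers.mapRingEquiv g).trans Rat.ringOfIntegersEquiv

theorem dvd_iff (g : F ≃+* ℚ) (m n : ℤ) : (m : 𝓞 F) ∣ (n : 𝓞 F) ↔ m ∣ n := by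
  have h := map_dvd_iff (eInt g) (a := (m : 𝓞 F)) (b := (n : 𝓞 F))
  rw [map_intCast, map_intCast] at h
  simpa using h.symm

theorem place (g : F ≃+* ℚ) {p : ℕ} (hp : p.Prime) :
    ∃ v : HeightOneSpectrum (𝓞 F), v.asIdeal = Ideal.span {((p : ℤ) : 𝓞 F)} := by
  have h1 : Prime ((p : ℤ) : 𝓞 F) := by
    have h2 : Prime ((eInt g) ((p : ℤ) : 𝓞 F)) := by
      rw [map_intCast]
      exact_mod_cast Nat.prime_iff_prime_int.1 hp
    exact (MulEquiv.prime_iff (eInt g).toMulEquiv).1 h2
  refine ⟨⟨Ideal.span {((p : ℤ) : 𝓞 F)}, (Ideal.span_singleton_prime h1.ne_zero).2 h1, ?_⟩, rfl⟩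
  rw [Ne, Ideal.span_singleton_eq_bot]
  exact h1.ne_zero

theorem val_int (v : HeightOneSpectrum (𝓞 F)) (n : ℤ) : v.valuation F (n : F) = v.intValuation (n : 𝓞 F) := by
  rw [← v.valuation_of_algebraMap (K := F)]
  congr 1

theorem val_p {v : HeightOneSpectrum (𝓞 F)} {p : ℕ} (hp : p.Prime) (hv : v.asIdeal = Ideal.span {((p : ℤ) : 𝓞 F)}) :
    v.valuation F ((p : ℤ) : F) = WithZero.exp (-1 : ℤ) := by
  rw [val_int]
  apply v.intValuation_singleton _ hv
  have : ((p : ℤ) : 𝓞 F) ≠ 0 := by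
    have : (p : ℤ) ≠ 0 := by exact_mod_cast hp.ne_zero
    exact_mod_cast this
  exact this

theorem val_unit (g : F ≃+* ℚ) {v : HeightOneSpectrum (𝓞 F)} {p : ℕ}
    (hv : v.asIdeal = Ideal.span {((p : ℤ) : 𝓞 F)}) {n : ℤ} (hn : ¬ (p : ℤ) ∣ n) : v.valuation F (n : F) = 1 := by
  rw [val_int, v.intValuation_eq_one_iff, hv, Ideal.mem_span_singleton, dvd_iff g]
  exact hn

theorem val_exp (v : HeightOneSpectrum (𝓞 F)) {w : F} (hw : w ≠ 0) : ∃ k : ℤ, v.valuation F w = WithZero.exp k := by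
  have h : v.valuation F w ≠ 0 := by
    rwa [Ne, Valuation.zero_iff]
  obtain ⟨k, hk⟩ := WithZero.ne_zero_iff_exists.1 h
  exact ⟨Multiplicative.toAdd k, by rw [← hk]; rfl⟩

theorem exp_inj {a b : ℤ} (h : WithZero.exp a = WithZero.exp b) : a = b := WithZero.exp_injective h

theorem od_neg {v : HeightOneSpectrum (𝓞 F)} {a : F} : Od v (-a) ↔ Od v a := by
  unfold Od
  rw [Valuation.map_neg]

theorem not_lsq {v : HeightOneSpectrum (𝓞 F)} {a : F} (h : Od v a) : ¬ Lsq v a := by
  intro hl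
  obtain ⟨n, hn⟩ := h
  obtain ⟨x, hx⟩ := hl 0
  rw [Nat.cast_zero, neg_zero, WithZero.exp_zero] at hx
  have h1 : v.valuation F (a * x ^ 2) = 1 := by
    have h2 : v.valuation F (a * x ^ 2 - 1) < v.valuation F (1 : F) := by rwa [map_one]
    have h3 := Valuation.map_sub_eq_of_lt_right (v.valuation F) (x := a * x ^ 2) (y := 1)
    by_contra hne
    rcases lt_or_gt_of_ne hne with h4 | h4
    · have h5 := h3 (by rw [map_one]; exact h4)
      rw [h5, map_one] at hx
      exact lt_irrefl _ hx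
    · have h5 := Valuation.map_sub_eq_of_lt_left (v.valuation F) (x := a * x ^ 2) (y := 1) (by rw [map_one]; exact h4)
      rw [h5] at hx
      exact absurd hx (not_lt.2 h4.le)
  have hx0 : x ≠ 0 := by
    rintro rfl
    rw [zero_pow (by norm_num), mul_zero, map_zero] at h1
    exact zero_ne_one h1
  obtain ⟨k, hk⟩ := val_exp v hx0
  rw [map_mul, map_pow, hn, hk, ← WithZero.exp_nsmul, ← WithZero.exp_add, ← WithZero.exp_zero] at h1
  have := exp_inj h1
  simp at this
  omega

theorem od_of (g : F ≃+* ℚ) {v : HeightOneSpectrum (𝓞 F)} {p : ℕ} (hp : p.Prime)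
    (hv : v.asIdeal = Ideal.span {((p : ℤ) : 𝓞 F)}) {n : ℤ} (hn : ¬ (p : ℤ) ∣ n) {w : F} (hw : w ≠ 0) {a : F}
    (ha : a = ((p * n : ℤ) : F) * w ^ 2) : Od v a := by
  obtain ⟨k, hk⟩ := val_exp v hw
  refine ⟨k - 1, ?_⟩
  rw [ha]
  push_cast
  have h1 := val_p hp hv
  rw [Int.cast_natCast] at h1
  rw [map_mul, map_mul, map_pow, h1, val_unit g hv hn, hk, mul_one, ← WithZero.exp_nsmul, ← WithZero.exp_add]
  congr 1
  rw [nsmul_eq_mul]
  push_cast
  ring

theorem not_lsq_neg_one (g : F ≃+* ℚ) {v : HeightOneSpectrum (𝓞 F)}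
    (hv : v.asIdeal = Ideal.span {(((2 : ℕ) : ℤ) : 𝓞 F)}) : ¬ Lsq v (-1 : F) := by
  intro hl
  obtain ⟨x, hx⟩ := hl 2
  set m : ℤ := (g x).num with hm
  set n : ℤ := ((g x).den : ℤ) with hn
  have hn0 : n ≠ 0 := by
    rw [hn]
    exact_mod_cast (g x).den_nz
  have hxn : x * (n : F) = (m : F) := by
    apply g.injective
    rw [map_mul, map_intCast, map_intCast, hn, hm]
    push_cast
    exact Rat.mul_den_eq_num (g x)
  have h1 : ((m ^ 2 + n ^ 2 : ℤ) : F) = -((-1 * x ^ 2 - 1) * (n : F) ^ 2) := by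
    push_cast
    rw [← hxn]
    ring
  have h2 : v.valuation F ((m ^ 2 + n ^ 2 : ℤ) : F) ≤ WithZero.exp (-((2 : ℕ) : ℤ)) := by
    rw [h1, Valuation.map_neg, map_mul, map_pow]
    have h3 : v.valuation F (n : F) ≤ 1 := by
      rw [val_int]
      exact v.intValuation_le_one _
    calc v.valuation F (-1 * x ^ 2 - 1) * v.valuation F (n : F) ^ 2 ≤
        WithZero.exp (-((2 : ℕ) : ℤ)) * 1 := mul_le_mul' hx.le (pow_le_one' h3 2)
      _ = _ := mul_one _
  rw [val_int, v.intValuation_le_pow_iff_mem, hv, Ideal.span_singleton_pow, Ideal.mem_span_singleton] at h2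
  have h3 : ((4 : ℤ) : 𝓞 F) ∣ ((m ^ 2 + n ^ 2 : ℤ) : 𝓞 F) := by
    have e : ((4 : ℤ) : 𝓞 F) = (((2 : ℕ) : ℤ) : 𝓞 F) ^ 2 := by
      push_cast
      norm_num
    rw [e]
    exact h2
  rw [dvd_iff g] at h3
  have hcop : IsCoprime m n := by
    rw [Int.isCoprime_iff_gcd_eq_one, hm, hn]
    exact (g x).reduced
  rcases Int.even_or_odd' m with ⟨a, ha | ha⟩ <;> rcases Int.even_or_odd' n with ⟨b, hb | hb⟩
  · obtain ⟨u, w, huw⟩ := hcop
    rw [ha, hb] at huw
    have : (2 : ℤ) * (u * a + w * b) = 1 := by linear_combination huw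
    omega
  · rw [ha, hb] at h3
    have : (2 * a) ^ 2 + (2 * b + 1) ^ 2 = 4 * (a ^ 2 + b ^ 2 + b) + 1 := by ring
    rw [this] at h3
    omega
  · rw [ha, hb] at h3
    have : (2 * a + 1) ^ 2 + (2 * b) ^ 2 = 4 * (a ^ 2 + b ^ 2 + a) + 1 := by ring
    rw [this] at h3
    omega
  · rw [ha, hb] at h3
    have : (2 * a + 1) ^ 2 + (2 * b + 1) ^ 2 = 4 * (a ^ 2 + b ^ 2 + a + b) + 2 := by ring
    rw [this] at h3
    omega

theorem cls (g : F ≃+* ℚ) {a : F} (ha : a ≠ 0) (hev : ∀ v : HeightOneSpectrum (𝓞 F), ¬ Dy v → ¬ Od v a) :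
    ∃ (s : ℤ) (w : F), w ≠ 0 ∧ a = (s : F) * w ^ 2 ∧ (s = 1 ∨ s = -1 ∨ s = 2 ∨ s = -2) := by
  set q : ℚ := g a with hq
  have hq0 : q ≠ 0 := by
    rw [hq]
    exact (map_ne_zero_iff g g.injective).2 ha
  set N : ℤ := q.num * q.den with hN
  have hN0 : N ≠ 0 := mul_ne_zero (Rat.num_ne_zero.2 hq0) (by exact_mod_cast q.den_nz)
  obtain ⟨u, b, hub, hu⟩ := Nat.sq_mul_squarefree N.natAbs
  have hu0 : u ≠ 0 := hu.ne_zero
  have hb0 : b ≠ 0 := by
    rintro rfl
    rw [zero_pow (by norm_num), zero_mul] at hub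
    exact hN0 (Int.natAbs_eq_zero.1 hub.symm)
  set w : F := (b : F) / (q.den : F) with hw
  have hden : (q.den : F) ≠ 0 := by exact_mod_cast q.den_nz
  have hw0 : w ≠ 0 := div_ne_zero (by exact_mod_cast hb0) hden
  have haN : a = ((N.sign * u : ℤ) : F) * w ^ 2 := by
    have h1 : (N : ℚ) = N.sign * (b ^ 2 * u) := by
      have h2 : N = N.sign * N.natAbs := (Int.sign_mul_natAbs N).symm
      rw [← hub] at h2
      conv_lhs => rw [h2]
      push_cast
      ring
    have h3 : q = N / (q.den : ℚ) ^ 2 := by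
      rw [hN]
      push_cast
      have hd : (q.den : ℚ) ≠ 0 := by exact_mod_cast q.den_nz
      rw [sq, ← div_div, mul_div_assoc, div_self hd, mul_one]
      exact (Rat.num_div_den q).symm
    apply g.injective
    rw [← hq, map_mul, map_intCast, map_pow, hw, map_div₀, map_natCast, map_natCast]
    conv_lhs => rw [h3, h1]
    push_cast
    ring
  have h2u : u = 1 ∨ u = 2 := by
    have hp : ∀ {p : ℕ}, p.Prime → p ∣ u → p = 2 := by
      intro p hp hpu
      by_contra hp2
      obtain ⟨v, hv⟩ := place g hp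
      have hDy : ¬ Dy v := by
        unfold Dy
        rw [hv, Ideal.mem_span_singleton]
        have e : (2 : 𝓞 F) = ((2 : ℤ) : 𝓞 F) := by norm_num
        rw [e, dvd_iff g]
        intro h
        have h' : p ∣ 2 := by exact_mod_cast h
        exact hp2 ((Nat.prime_dvd_prime_iff_eq hp Nat.prime_two).1 h')
      obtain ⟨u', hu'⟩ := hpu
      apply hev v hDy
      refine od_of g hp hv (n := N.sign * u') ?_ hw0 ?_
      · intro h
        have h1 : (p : ℤ) ∣ (u' : ℤ) := by
          rcases Int.natAbs_eq N with h3 | h3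
          · have h4 : N.sign = 1 ∨ N.sign = -1 := by
              rcases lt_trichotomy N 0 with h5 | h5 | h5
              · exact Or.inr (Int.sign_eq_neg_one_of_neg h5)
              · exact absurd h5 hN0
              · exact Or.inl (Int.sign_eq_one_of_pos h5)
            rcases h4 with h4 | h4
            · rwa [h4, one_mul] at h
            · rwa [h4, neg_one_mul, dvd_neg] at h
          · have h4 : N.sign = 1 ∨ N.sign = -1 := by
              rcases lt_trichotomy N 0 with h5 | h5 | h5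
              · exact Or.inr (Int.sign_eq_neg_one_of_neg h5)
              · exact absurd h5 hN0
              · exact Or.inl (Int.sign_eq_one_of_pos h5)
            rcases h4 with h4 | h4
            · rwa [h4, one_mul] at h
            · rwa [h4, neg_one_mul, dvd_neg] at h
        have h2 : p ∣ u' := by exact_mod_cast h1
        obtain ⟨u'', hu''⟩ := h2
        have h3 : p * p ∣ u := ⟨u'', by rw [hu', hu'']; ring⟩
        exact hp.not_isUnit (hu p h3)
      · rw [haN, hu']
        push_cast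
        ring
    have h1 := Nat.eq_prime_pow_of_unique_prime_dvd hu0 (p := 2) (fun {d} hd hdu => hp hd hdu)
    set k := u.primeFactorsList.length with hk
    rcases Nat.lt_or_ge k 2 with h2 | h2
    · interval_cases k
      · left; simpa using h1
      · right; simpa using h1
    · exfalso
      have h3 : 2 * 2 ∣ u := by
        rw [h1]
        exact (pow_dvd_pow 2 h2)
      have := hu 2 h3
      exact Nat.prime_two.not_isUnit this
  have hs : N.sign = 1 ∨ N.sign = -1 := by
    rcases lt_trichotomy N 0 with h5 | h5 | h5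
    · exact Or.inr (Int.sign_eq_neg_one_of_neg h5)
    · exact absurd h5 hN0
    · exact Or.inl (Int.sign_eq_one_of_pos h5)
  refine ⟨N.sign * u, w, hw0, haN, ?_⟩
  rcases h2u with h | h <;> rcases hs with h' | h' <;> rw [h, h'] <;> simp

/-- the class of `a` modulo squares is determined by the parity of `r` -/
theorem cond_cls (g : F ≃+* ℚ) {e : HeightOneSpectrum (𝓞 F) → F} {r : ℕ} {a : F}
    (h : Cond (AE e) ((-1) ^ r * 1) a) (hns : ¬ IsSquare a) :
    ∃ w : F, w ≠ 0 ∧ a = (((if Even r then 2 else -1) : ℤ) : F) * w ^ 2 := by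
  obtain ⟨s, w, hw, ha, hs⟩ := cls g h.ne (fun v hv => h.even v hv (by
    rintro ⟨n, hn⟩
    rw [mul_one, map_pow, Valuation.map_neg, map_one, one_pow, ← WithZero.exp_zero] at hn
    have := exp_inj hn
    omega))
  have hs1 : s ≠ 1 := by
    rintro rfl
    apply hns
    rw [ha]
    exact ⟨w, by push_cast; ring⟩
  refine ⟨w, hw, ?_⟩
  rw [ha]
  congr 2
  by_cases hr : Even r
  · rw [if_pos hr]
    have h1 := h.real ((algebraMap ℚ ℝ).comp g.toRingHom) (by
      rw [hr.neg_one_pow, mul_one, map_one]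
      exact one_pos)
    have h2 : ((algebraMap ℚ ℝ).comp g.toRingHom) a = (s : ℝ) * (((algebraMap ℚ ℝ).comp g.toRingHom) w) ^ 2 := by
      rw [ha, map_mul, map_intCast, map_pow]
    rw [h2] at h1
    have h3 : 0 < (s : ℝ) := by
      by_contra hcon
      push Not at hcon
      have := sq_nonneg (((algebraMap ℚ ℝ).comp g.toRingHom) w)
      nlinarith
    have h4 : 0 < s := by exact_mod_cast h3
    omega
  · rw [if_neg hr]
    have hodd : Odd r := Nat.not_even_iff_odd.1 hr
    obtain ⟨v, hv⟩ := place g Nat.prime_two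
    have hDy : Dy v := by
      unfold Dy
      rw [hv, Ideal.mem_span_singleton]
      have e : (2 : 𝓞 F) = (((2 : ℕ) : ℤ) : 𝓞 F) := by norm_num
      rw [e]
    have h1 := h.two v hDy
    rw [hodd.neg_one_pow, mul_one] at h1
    obtain ⟨_, h2⟩ := h1
    have hnO : ¬ Od v a := by
      intro hO
      rcases h2 with h2 | h2 | ⟨h2, _⟩
      · exact not_lsq hO h2
      · rw [mul_neg, mul_one] at h2
        exact not_lsq (od_neg.2 hO) h2
      · exact not_lsq_neg_one g hv h2
    rcases hs with h3 | h3 | h3 | h3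
    · exact absurd h3 hs1
    · exact h3
    · exfalso
      apply hnO
      refine od_of g Nat.prime_two hv (n := 1) (by norm_num) hw ?_
      rw [ha, h3]
      norm_num
    · exfalso
      apply hnO
      refine od_of g Nat.prime_two hv (n := -1) (by norm_num) hw ?_
      rw [ha, h3]
      norm_num

end Pool.Agent.Q190.LS
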