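import Pool.Agent.Q190.LS.D1

/-! Project LS (helper7), job DEP, part 2: denominators, residue classes, norms. -/

set_option autoImplicit false
set_option linter.unusedSectionVars false

namespace Pool.Agent.Q190.LS.D

open NumberField IsDedekindDomain Filter Topology Finset
open Pool.Agent.Q7.LK Pool.Agent.Q7.LS
open Pool.Agent.Q65.LK (ord_above)

section

variable {F : Type} [Field F] [NumberField F] {L : Type} [Field L] [NumberField L] [Algebra F L]

/-- an element which kills the primes above `p` outside `T` -/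
theorem exists_s (p : ℕ) [Fact p.Prime] (Tf : Finset (HeightOneSpectrum (𝓞 F))) :
    ∃ s : 𝓞 F, (∀ v ∈ Tf, Dp p v → v.valuation F (s : F) = 1) ∧
      ∀ v, v ∉ Tf → Dp p v → v.valuation F (s : F) ≤ v.valuation F (p : F) := by
  classical
  set D : Finset (HeightOneSpectrum (𝓞 F)) := (fin_Dp (F := F) p).toFinset with hD
  have hmem : ∀ v, v ∈ D ↔ Dp p v := by
    intro v
    rw [hD, Set.Finite.mem_toFinset]
    rfl
  obtain ⟨s, hs⟩ := IsDedekindDomain.exists_forall_sub_mem_ideal (s := D) (fun v => v.asIdeal)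
    (fun v => v.asIdeal.ramificationIdx ℤ + 1) (fun v _ => v.prime)
    (fun v _ w _ hvw h => hvw (HeightOneSpectrum.ext h)) (fun v => if v.1 ∈ Tf then 1 else 0)
  refine ⟨s, ?_, ?_⟩
  · intro v hv hp
    have h1 := hs v ((hmem v).2 hp)
    rw [if_pos hv] at h1
    have h2 : s - 1 ∈ v.asIdeal := Ideal.pow_le_self (Nat.succ_ne_zero _) h1
    have h3 : v.valuation F (algebraMap (𝓞 F) F (s - 1)) < 1 := (v.valuation_lt_one_iff_mem _).2 h2
    have h4 := Valuation.map_one_add_of_lt (v := v.valuation F) h3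
    rw [map_sub, map_one, add_sub_cancel] at h4
    exact h4
  · intro v hv hp
    have h1 := hs v ((hmem v).2 hp)
    rw [if_neg hv, sub_zero] at h1
    rw [← v.intValuation_le_pow_iff_mem] at h1
    rw [show v.valuation F (s : F) = v.intValuation s from v.valuation_of_algebraMap s]
    rw [ord_above p v hp]
    refine h1.trans ?_
    rw [WithZero.exp_le_exp]
    push_cast
    linarith

/-- denominators -/
theorem denom (p : ℕ) [hp : Fact p.Prime] {Tf : Finset (HeightOneSpectrum (𝓞 F))} (hT : ∀ v ∈ Tf, Dp p v) (z : L)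
    (hz : ∀ v ∈ Tf, ∀ P : HeightOneSpectrum (𝓞 L), Ab v P → P.valuation L z ≤ 1) :
    ∃ (b : 𝓞 F) (z0 : 𝓞 L), (∀ v ∈ Tf, v.valuation F (b : F) = 1) ∧ algebraMap F L (b : F) * z = z0 := by
  obtain ⟨s, hs1, hs2⟩ := exists_s (F := F) p Tf
  have halg : IsAlgebraic ℤ z := by
    have h1 : IsAlgebraic ℚ z := Algebra.IsAlgebraic.isAlgebraic z
    exact (IsFractionRing.isAlgebraic_iff ℤ ℚ L).2 h1
  obtain ⟨m, hm0, hm⟩ := halg.exists_integral_multiple
  -- replace `m` by its absolute value
  have hm' : IsIntegral ℤ ((m.natAbs : L) * z) := by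
    rw [zsmul_eq_mul] at hm
    rcases Int.natAbs_eq m with h | h
    · have h1 : ((m.natAbs : ℕ) : L) = ((m : ℤ) : L) := by
        have h2 := congrArg (fun t : ℤ => (t : L)) h
        simp only [Int.cast_natCast] at h2
        exact h2.symm
      rw [h1]
      exact hm
    · have h1 : ((m.natAbs : ℕ) : L) = -((m : ℤ) : L) := by
        have h2 := congrArg (fun t : ℤ => (t : L)) h
        simp only [Int.cast_neg, Int.cast_natCast] at h2
        rw [h2, neg_neg]
      rw [h1, neg_mul]
      exact hm.neg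
  have hn0 : m.natAbs ≠ 0 := Int.natAbs_ne_zero.2 hm0
  obtain ⟨k, m', hm'1, hm'2⟩ := Nat.exists_eq_pow_mul_and_not_dvd hn0 p hp.out.ne_one
  rw [hm'2] at hm'
  set b : 𝓞 F := s ^ k * (m' : 𝓞 F) with hb
  have hbF : (b : F) = (s : F) ^ k * (m' : F) := by
    rw [hb]
    simp
  -- the valuation of `m'` at the primes above `p`
  have hcop : ∀ {K : Type} [Field K] [NumberField K] (v : HeightOneSpectrum (𝓞 K)), Dp p v →
      v.valuation K (m' : K) = 1 := by
    intro K _ _ v hv
    have h1 : (m' : 𝓞 K) ∉ v.asIdeal := by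
      intro h2
      have h3 : Nat.Coprime p m' := (Nat.Prime.coprime_iff_not_dvd hp.out).2 hm'1
      have h4 : IsCoprime (p : 𝓞 K) (m' : 𝓞 K) := by
        have := Nat.isCoprime_iff_coprime.2 h3
        have h5 := this.map (Int.castRingHom (𝓞 K))
        simpa using h5
      obtain ⟨u, w, huw⟩ := h4
      have h5 : (1 : 𝓞 K) ∈ v.asIdeal := by
        rw [← huw]
        exact v.asIdeal.add_mem (v.asIdeal.mul_mem_left _ hv) (v.asIdeal.mul_mem_left _ h2)
      exact v.isPrime.ne_top ((Ideal.eq_top_iff_one _).2 h5)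
    have h2 : v.valuation K (algebraMap (𝓞 K) K (m' : 𝓞 K)) = 1 := by
      refine le_antisymm (v.valuation_le_one _) ?_
      rw [← not_lt, v.valuation_lt_one_iff_mem]
      exact h1
    rwa [map_natCast] at h2
  have hbT : ∀ v ∈ Tf, v.valuation F (b : F) = 1 := by
    intro v hv
    rw [hbF, map_mul, map_pow, hs1 v hv (hT v hv), one_pow, one_mul, hcop v (hT v hv)]
  have hint : ∀ P : HeightOneSpectrum (𝓞 L), P.valuation L (algebraMap F L (b : F) * z) ≤ 1 := by
    intro P
    obtain ⟨v, hv⟩ := exists_under (F := F) P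
    have hpm : P.valuation L (((p ^ k * m' : ℕ) : L) * z) ≤ 1 := by
      have h1 := P.valuation_le_one (K := L) ⟨_, hm'⟩
      exact h1
    by_cases hvT : v ∈ Tf
    · rw [map_mul, one_up hv (hbT v hvT), one_mul]
      exact hz v hvT P hv
    · have h1 : P.valuation L (algebraMap F L (b : F) * z) ≤ P.valuation L (((p ^ k * m' : ℕ) : L) * z) := by
        rw [map_mul, map_mul]
        refine mul_le_mul_left ?_ _
        rw [hbF, Nat.cast_mul, Nat.cast_pow, map_mul (algebraMap F L), map_pow (algebraMap F L),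
          map_natCast (algebraMap F L), map_mul, map_mul, map_pow, map_pow]
        refine mul_le_mul_left ?_ _
        refine pow_le_pow_left' ?_ k
        by_cases hpv : Dp p v
        · have h2 := le_up hv (hs2 v hvT hpv)
          rwa [map_natCast] at h2
        · have h3 : P.valuation L (p : L) = 1 := by
            have h4 : ¬ Dp p P := fun h => hpv (Dp_down hv h)
            have h5 : P.valuation L (algebraMap (𝓞 L) L (p : 𝓞 L)) = 1 := by
              refine le_antisymm (P.valuation_le_one _) ?_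
              rw [← not_lt, P.valuation_lt_one_iff_mem]
              exact h4
            rwa [map_natCast] at h5
          rw [h3]
          have h6 : P.valuation L (algebraMap F L ((s : 𝓞 F) : F)) ≤ 1 := by
            have h7 := P.valuation_le_one (K := L) (algebraMap (𝓞 F) (𝓞 L) s)
            exact h7
          exact h6
      exact h1.trans hpm
  obtain ⟨z0, hz0⟩ := HeightOneSpectrum.mem_integers_of_valuation_le_one L _ hint
  exact ⟨b, z0, hbT, hz0.symm⟩

/-- approximation by integers modulo `p ^ k` -/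
theorem approx (p : ℕ) [hp : Fact p.Prime] {Tf : Finset (HeightOneSpectrum (𝓞 F))} (hT : ∀ v ∈ Tf, Dp p v) (k : ℕ)
    (z : L) (hz : ∀ v ∈ Tf, ∀ P : HeightOneSpectrum (𝓞 L), Ab v P → P.valuation L z ≤ 1) :
    ∃ z0 : 𝓞 L, ∀ v ∈ Tf, ∀ P : HeightOneSpectrum (𝓞 L), Ab v P →
      P.valuation L (z - z0) ≤ P.valuation L ((p : L) ^ k) := by
  obtain ⟨b, z1, hb, hz1⟩ := denom p hT z hz
  have hcop : IsCoprime (Ideal.span {b}) (AA Tf ^ k) := by
    apply IsCoprime.pow_right
    rw [Ideal.isCoprime_iff_sup_eq]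
    by_contra hne
    obtain ⟨M, hM, hle⟩ := Ideal.exists_le_maximal _ hne
    have h1 : AA Tf ≤ M := le_sup_right.trans hle
    have h2 : b ∈ M := hle (Ideal.mem_sup_left (Ideal.mem_span_singleton_self b))
    unfold AA at h1
    have h3 := (Ideal.IsPrime.prod_le (hM.isPrime)).1 h1
    obtain ⟨v, hv, h4⟩ := h3
    have h5 : v.asIdeal ≤ M := by
      intro x hx
      exact hM.isPrime.mem_of_pow_mem _ (h4 (Ideal.pow_mem_pow hx _))
    have h6 : v.asIdeal = M := v.isMaximal.eq_of_le hM.ne_top h5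
    rw [← h6] at h2
    have h7 := (v.valuation_lt_one_iff_mem (K := F) b).2 h2
    exact absurd (hb v hv) (ne_of_lt h7)
  obtain ⟨u, hu, w, hw, huw⟩ := Ideal.isCoprime_iff_exists.1 hcop
  obtain ⟨b', rfl⟩ := Ideal.mem_span_singleton'.1 hu
  refine ⟨algebraMap (𝓞 F) (𝓞 L) b' * z1, ?_⟩
  intro v hv P hP
  have e1 : z - ((algebraMap (𝓞 F) (𝓞 L) b' * z1 : 𝓞 L) : L) = algebraMap F L (w : F) * z := by
    have e2 : ((algebraMap (𝓞 F) (𝓞 L) b' * z1 : 𝓞 L) : L) = algebraMap F L (b' : F) * (z1 : L) := by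
      change algebraMap (𝓞 L) L (algebraMap (𝓞 F) (𝓞 L) b' * z1) = _
      rw [map_mul]
      rfl
    have e3 : (w : F) = 1 - (b' : F) * (b : F) := by
      have := congrArg (fun t : 𝓞 F => (t : F)) huw
      push_cast at this
      linear_combination this
    rw [e2, ← hz1, e3, map_sub, map_mul, map_one]
    ring
  rw [e1, map_mul]
  have h8 := (mem_AA p Tf hT k w).1 hw v hv
  have h9 := le_up hP h8
  rw [map_pow, map_natCast] at h9
  calc P.valuation L (algebraMap F L (w : F)) * P.valuation L z ≤ P.valuation L ((p : L) ^ k) * 1 :=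
        mul_le_mul' h9 (hz v hv P hP)
    _ = _ := mul_one _

/-- the extension of the ideal -/
theorem map_AA (p : ℕ) [hp : Fact p.Prime] {Tf : Finset (HeightOneSpectrum (𝓞 F))} (hT : ∀ v ∈ Tf, Dp p v) (k : ℕ)
    (z : 𝓞 L) (hz : z ∈ (AA Tf ^ k).map (algebraMap (𝓞 F) (𝓞 L))) :
    ∀ v ∈ Tf, ∀ P : HeightOneSpectrum (𝓞 L), Ab v P → P.valuation L (z : L) ≤ P.valuation L ((p : L) ^ k) := by
  intro v hv P hP
  unfold Ideal.map at hz
  refine Submodule.span_induction ?_ ?_ ?_ ?_ hz
  · rintro _ ⟨x, hx, rfl⟩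
    have h8 := (mem_AA p Tf hT k x).1 hx v hv
    have h9 := le_up hP h8
    rw [map_pow, map_natCast] at h9
    exact h9
  · simp
  · intro x y _ _ hx hy
    change P.valuation L (algebraMap (𝓞 L) L (x + y)) ≤ _
    rw [map_add]
    exact Valuation.map_add_le _ hx hy
  · intro a x _ hx
    change P.valuation L (algebraMap (𝓞 L) L (a * x)) ≤ _
    rw [map_mul, map_mul]
    exact mul_le_of_le_one_of_le (P.valuation_le_one a) hx

end

end Pool.Agent.Q190.LS.D
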