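import Pool.Agent.Q190.LS.D2

/-! Project LS (helper7), job DEP, part 3: the norm of numbers close to `1`. -/

set_option autoImplicit false
set_option linter.unusedSectionVars false

namespace Pool.Agent.Q190.LS.D

open NumberField IsDedekindDomain Filter Topology Finset
open Pool.Agent.Q7.LK Pool.Agent.Q7.LS

theorem prod_int {E : Type} [Field E] {ι : Type} (t : Finset ι) (f : ι → E) (b c : E) (hb : IsIntegral ℤ b)
    (hc : IsIntegral ℤ c) (hf : ∀ i ∈ t, IsIntegral ℤ (f i)) :
    ∃ Q : E, IsIntegral ℤ Q ∧ ∏ i ∈ t, (b + c * f i) = b ^ t.card + c * Q := by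
  classical
  induction t using Finset.induction_on with
  | empty => exact ⟨0, isIntegral_zero, by simp⟩
  | insert i t hi ih =>
    obtain ⟨Q, hQ, h⟩ := ih fun j hj => hf j (mem_insert_of_mem hj)
    have hfi := hf i (mem_insert_self _ _)
    refine ⟨b ^ t.card * f i + Q * b + c * Q * f i, ?_, ?_⟩
    · exact (((hb.pow _).mul hfi).add (hQ.mul hb)).add ((hc.mul hQ).mul hfi)
    · rw [prod_insert hi, card_insert_of_notMem hi, h]
      ring

section

variable {F : Type} [Field F] [NumberField F] {L : Type} [Field L] [NumberField L] [Algebra F L]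

theorem norm_cong (b c : 𝓞 F) (hc : c ≠ 0) (z : 𝓞 L) : ∃ q : 𝓞 F,
    Algebra.norm F (algebraMap F L (b : F) + algebraMap F L (c : F) * (z : L)) =
      (b : F) ^ Module.finrank F L + (c : F) * (q : F) := by
  set E := AlgebraicClosure F with hE
  have hfd : FiniteDimensional F L := Module.Finite.of_restrictScalars_finite ℚ F L
  have hcF : (c : F) ≠ 0 := by
    intro h
    exact hc (RingOfIntegers.ext h)
  have h1 : algebraMap F E (Algebra.norm F (algebraMap F L (b : F) + algebraMap F L (c : F) * (z : L))) =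
      ∏ σ : L →ₐ[F] E, (algebraMap F E (b : F) + algebraMap F E (c : F) * σ (z : L)) := by
    rw [Algebra.norm_eq_prod_embeddings F E]
    refine prod_congr rfl fun σ _ => ?_
    rw [map_add, map_mul, AlgHom.commutes, AlgHom.commutes]
  obtain ⟨Q, hQ, h2⟩ := prod_int (univ : Finset (L →ₐ[F] E)) (fun σ => σ (z : L)) (algebraMap F E (b : F))
    (algebraMap F E (c : F)) (b.2.map (algebraMap F E).toIntAlgHom) (c.2.map (algebraMap F E).toIntAlgHom)
    (fun σ _ => z.2.map (σ.restrictScalars ℤ))
  have hcard : (univ : Finset (L →ₐ[F] E)).card = Module.finrank F L := by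
    rw [card_univ]
    exact AlgHom.card F L E
  rw [hcard] at h2
  set N := Algebra.norm F (algebraMap F L (b : F) + algebraMap F L (c : F) * (z : L)) with hN
  have h3 : algebraMap F E ((N - (b : F) ^ Module.finrank F L) / (c : F)) = Q := by
    rw [map_div₀, map_sub, map_pow, h1, h2]
    have : algebraMap F E (c : F) ≠ 0 := by
      rw [Ne, map_eq_zero]
      exact hcF
    rw [add_sub_cancel_left, mul_div_cancel_left₀ _ this]
  have h4 : IsIntegral ℤ ((N - (b : F) ^ Module.finrank F L) / (c : F)) := by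
    rw [← h3] at hQ
    exact (isIntegral_algHom_iff (algebraMap F E).toIntAlgHom (algebraMap F E).injective).1 hQ
  refine ⟨⟨_, h4⟩, ?_⟩
  show N = (b : F) ^ Module.finrank F L + (c : F) * ((N - (b : F) ^ Module.finrank F L) / (c : F))
  have h5 : (c : F) * ((N - (b : F) ^ Module.finrank F L) / (c : F)) = N - (b : F) ^ Module.finrank F L := by
    rw [mul_comm]
    exact div_mul_cancel₀ _ hcF
  rw [h5]
  ring

/-- the norm of a number close to `1` -/
theorem norm_near (p : ℕ) [hp : Fact p.Prime] {Tf : Finset (HeightOneSpectrum (𝓞 F))} (hT : ∀ v ∈ Tf, Dp p v)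
    (N : ℕ) (x : L)
    (hx : ∀ v ∈ Tf, ∀ P : HeightOneSpectrum (𝓞 L), Ab v P → P.valuation L (x - 1) ≤ P.valuation L ((p : L) ^ N)) :
    ∀ v ∈ Tf, v.valuation F (Algebra.norm F x - 1) ≤ v.valuation F ((p : F) ^ N) := by
  have hpL : (p : L) ≠ 0 := Nat.cast_ne_zero.2 hp.out.ne_zero
  have hpF : (p : F) ≠ 0 := Nat.cast_ne_zero.2 hp.out.ne_zero
  have hfd : FiniteDimensional F L := Module.Finite.of_restrictScalars_finite ℚ F L
  set y : L := (x - 1) / (p : L) ^ N with hy
  have hxy : x = 1 + (p : L) ^ N * y := by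
    rw [hy]
    field_simp
    ring
  have hyv : ∀ v ∈ Tf, ∀ P : HeightOneSpectrum (𝓞 L), Ab v P → P.valuation L y ≤ 1 := by
    intro v hv P hP
    rw [hy, map_div₀]
    have h1 : P.valuation L ((p : L) ^ N) ≠ 0 := (Valuation.ne_zero_iff _).2 (pow_ne_zero _ hpL)
    exact div_le_one_of_le₀ (hx v hv P hP) zero_le
  obtain ⟨b, z0, hb, hbz⟩ := denom p hT y hyv
  have hpO : ((p : 𝓞 F) ^ N) ≠ 0 := pow_ne_zero _ (Nat.cast_ne_zero.2 hp.out.ne_zero)
  obtain ⟨q, hq⟩ := norm_cong (L := L) b ((p : 𝓞 F) ^ N) hpO z0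
  have hpN : (((p : 𝓞 F) ^ N : 𝓞 F) : F) = (p : F) ^ N := by simp
  rw [hpN, ← hbz] at hq
  have h2 : algebraMap F L (b : F) + algebraMap F L ((p : F) ^ N) * (algebraMap F L (b : F) * y) =
      algebraMap F L (b : F) * x := by
    rw [hxy, map_pow, map_natCast]
    ring
  rw [h2, map_mul, Algebra.norm_algebraMap] at hq
  intro v hv
  have hb1 := hb v hv
  have hbn : (b : F) ≠ 0 := by
    intro h
    rw [h, map_zero] at hb1
    exact zero_ne_one hb1
  have h3 : Algebra.norm F x - 1 = (p : F) ^ N * ((q : F) / (b : F) ^ Module.finrank F L) := by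
    field_simp
    linear_combination hq
  rw [h3, map_mul, map_div₀, map_pow (v.valuation F) (b : F), hb1, one_pow, div_one]
  exact mul_le_of_le_one_right' (v.valuation_le_one q)

end

end Pool.Agent.Q190.LS.D
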