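import Pool.Agent.Q190.LS.D3

/-! Project LS (helper7), job DEP, part 4: the number of the classes of norm `1`. -/

set_option autoImplicit false
set_option linter.unusedSectionVars false

namespace Pool.Agent.Q190.LS.D

open NumberField IsDedekindDomain Filter Topology Finset
open Pool.Agent.Q7.LK Pool.Agent.Q7.LS

section

variable {F : Type} [Field F] [NumberField F] {L : Type} [Field L] [NumberField L] [Algebra F L]

theorem card_map (I : Ideal (𝓞 F)) {p : ℕ} (hfin : Module.finrank F L = p) :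
    Ideal.absNorm (I.map (algebraMap (𝓞 F) (𝓞 L))) = Ideal.absNorm I ^ p := by
  rw [Ideal.absNorm_algebraMap, ← IsFractionRing.finrank_eq (𝓞 F) F (𝓞 L) L, hfin]

theorem one_of_near {K : Type} [Field K] (w : Valuation K (WithZero (Multiplicative ℤ))) {x : K}
    (h : w (x - 1) < 1) : w x = 1 := by
  have h3 := Valuation.map_one_add_of_lt (v := w) (x := x - 1) h
  rwa [add_sub_cancel] at h3

theorem sub_div {K : Type} [Field K] (w : Valuation K (WithZero (Multiplicative ℤ))) {x y : K}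
    (h : w y = 1) : w (x / y - 1) = w (x - y) := by
  have hy : y ≠ 0 := by
    intro h0
    rw [h0, map_zero] at h
    exact zero_ne_one h
  have h1 : x / y - 1 = (x - y) / y := by
    rw [_root_.sub_div, div_self hy]
  rw [h1, map_div₀, h, div_one]

theorem val_pow_lt {p : ℕ} {K : Type} [Field K] [NumberField K] (v : HeightOneSpectrum (𝓞 K)) (h : Dp p v) {k : ℕ}
    (hk : k ≠ 0) : v.valuation K ((p : K) ^ k) < 1 := by
  rw [map_pow]
  exact pow_lt_one₀ zero_le (val_p_lt v h) hk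

theorem norm_div (x y : L) : Algebra.norm F (x / y) = Algebra.norm F x / Algebra.norm F y := by
  have hfd : FiniteDimensional F L := Module.Finite.of_restrictScalars_finite ℚ F L
  by_cases hy : y = 0
  · rw [hy, div_zero, Algebra.norm_zero, div_zero]
  · have h1 : Algebra.norm F y ≠ 0 := Algebra.norm_ne_zero_iff.2 hy
    rw [eq_div_iff h1, ← map_mul, div_mul_cancel₀ _ hy]

/-- the main inequality -/
theorem MC (p : ℕ) [hp : Fact p.Prime] (hfin : Module.finrank F L = p) {Tf : Finset (HeightOneSpectrum (𝓞 F))}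
    (hT : ∀ v ∈ Tf, Dp p v) (j : ℕ) (W : Finset Lˣ) (hW1 : ∀ w ∈ W, Algebra.norm F ((w : Lˣ) : L) = 1)
    (hW2 : ∀ w ∈ W, ∀ v ∈ Tf, ∀ P : HeightOneSpectrum (𝓞 L), Ab v P →
      P.valuation L (((w : Lˣ) : L) - 1) ≤ P.valuation L ((p : L) ^ 2))
    (hW3 : ∀ w ∈ W, ∀ w' ∈ W, (∀ v ∈ Tf, ∀ P : HeightOneSpectrum (𝓞 L), Ab v P →
      P.valuation L (((w : Lˣ) : L) / ((w' : Lˣ) : L) - 1) ≤ P.valuation L ((p : L) ^ (j + 3))) → w = w') :
    W.card * p ^ (j * ∑ v ∈ Tf, dv p v) ≤ p ^ (p * ((j + 1) * ∑ v ∈ Tf, dv p v)) := by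
  classical
  have hpL : (p : L) ≠ 0 := Nat.cast_ne_zero.2 hp.out.ne_zero
  have hpF : (p : F) ≠ 0 := Nat.cast_ne_zero.2 hp.out.ne_zero
  -- the cardinalities of the two quotients
  have c1 : Nat.card (𝓞 F ⧸ AA Tf ^ j) = p ^ (j * ∑ v ∈ Tf, dv p v) := by
    rw [← Submodule.cardQuot_apply, ← Ideal.absNorm_apply, map_pow, norm_AA p Tf hT, ← pow_mul, mul_comm]
  have c2 : Nat.card (𝓞 L ⧸ (AA Tf ^ (j + 1)).map (algebraMap (𝓞 F) (𝓞 L))) =
      p ^ (p * ((j + 1) * ∑ v ∈ Tf, dv p v)) := by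
    rw [← Submodule.cardQuot_apply, ← Ideal.absNorm_apply, card_map _ hfin, map_pow, norm_AA p Tf hT, ← pow_mul,
      ← pow_mul]
    congr 1
    ring
  have hpp : 0 < p := hp.out.pos
  have f1 : Finite (𝓞 F ⧸ AA Tf ^ j) := Nat.finite_of_card_ne_zero (by rw [c1]; positivity)
  have f2 : Finite (𝓞 L ⧸ (AA Tf ^ (j + 1)).map (algebraMap (𝓞 F) (𝓞 L))) :=
    Nat.finite_of_card_ne_zero (by rw [c2]; positivity)
  -- the numbers `1 + p ^ 2 t`
  let tt : (𝓞 F ⧸ AA Tf ^ j) → 𝓞 F := fun q => Quotient.out q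
  have htt : ∀ q, Ideal.Quotient.mk (AA Tf ^ j) (tt q) = q := fun q => Quotient.out_eq q
  let u : (𝓞 F ⧸ AA Tf ^ j) → F := fun q => 1 + (p : F) ^ 2 * (tt q : F)
  have hu1 : ∀ q, ∀ v ∈ Tf, v.valuation F (u q - 1) ≤ v.valuation F ((p : F) ^ 2) := by
    intro q v _
    have h1 : u q - 1 = (p : F) ^ 2 * (tt q : F) := by
      show 1 + (p : F) ^ 2 * (tt q : F) - 1 = _
      ring
    rw [h1, map_mul]
    exact mul_le_of_le_one_right' (v.valuation_le_one (tt q))
  have hu2 : ∀ q, ∀ v ∈ Tf, v.valuation F (u q) = 1 := fun q v hv =>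
    one_of_near _ (lt_of_le_of_lt (hu1 q v hv) (val_pow_lt v (hT v hv) two_ne_zero))
  -- the products
  let g : Lˣ × (𝓞 F ⧸ AA Tf ^ j) → L := fun x => (x.1 : L) * algebraMap F L (u x.2)
  have hg1 : ∀ x : Lˣ × (𝓞 F ⧸ AA Tf ^ j), x.1 ∈ W → ∀ v ∈ Tf, ∀ P : HeightOneSpectrum (𝓞 L), Ab v P →
      P.valuation L (g x - 1) ≤ P.valuation L ((p : L) ^ 2) := by
    intro x hx v hv P hP
    have h1 : g x - 1 = ((x.1 : L) - 1) * algebraMap F L (u x.2) + algebraMap F L (u x.2 - 1) := by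
      show (x.1 : L) * algebraMap F L (u x.2) - 1 = _
      rw [map_sub, map_one]
      ring
    rw [h1]
    refine Valuation.map_add_le _ ?_ ?_
    · rw [map_mul, one_up hP (hu2 x.2 v hv), mul_one]
      exact hW2 _ hx v hv P hP
    · have h2 := le_up hP (hu1 x.2 v hv)
      rwa [map_pow (algebraMap F L), map_natCast (algebraMap F L)] at h2
  have hg2 : ∀ x : Lˣ × (𝓞 F ⧸ AA Tf ^ j), x.1 ∈ W → ∀ v ∈ Tf, ∀ P : HeightOneSpectrum (𝓞 L), Ab v P →
      P.valuation L (g x) = 1 := fun x hx v hv P hP =>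
    one_of_near _ (lt_of_le_of_lt (hg1 x hx v hv P hP) (val_pow_lt P (Dp_up hP (hT v hv)) two_ne_zero))
  -- the approximations
  have hy : ∀ x : Lˣ × (𝓞 F ⧸ AA Tf ^ j), ∃ z0 : 𝓞 L, x.1 ∈ W → ∀ v ∈ Tf, ∀ P : HeightOneSpectrum (𝓞 L), Ab v P →
      P.valuation L ((g x - 1) / (p : L) ^ 2 - z0) ≤ P.valuation L ((p : L) ^ (j + 1)) := by
    intro x
    by_cases hx : x.1 ∈ W
    · obtain ⟨z0, hz0⟩ := approx p hT (j + 1) ((g x - 1) / (p : L) ^ 2) (by
        intro v hv P hP
        rw [map_div₀]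
        exact div_le_one_of_le₀ (hg1 x hx v hv P hP) zero_le)
      exact ⟨z0, fun _ => hz0⟩
    · exact ⟨0, fun h => absurd h hx⟩
  choose z0 hz0 using hy
  -- the injective map
  let Φ : W × (𝓞 F ⧸ AA Tf ^ j) → (𝓞 L ⧸ (AA Tf ^ (j + 1)).map (algebraMap (𝓞 F) (𝓞 L))) :=
    fun x => Ideal.Quotient.mk _ (z0 (x.1.1, x.2))
  have hinj : Function.Injective Φ := by
    rintro ⟨⟨w, hw⟩, q⟩ ⟨⟨w', hw'⟩, q'⟩ hxx
    have h1 : z0 (w, q) - z0 (w', q') ∈ (AA Tf ^ (j + 1)).map (algebraMap (𝓞 F) (𝓞 L)) := by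
      rw [← Ideal.Quotient.eq]
      exact hxx
    have h2 := map_AA p hT (j + 1) _ h1
    have h3 : ∀ v ∈ Tf, ∀ P : HeightOneSpectrum (𝓞 L), Ab v P →
        P.valuation L (g (w, q) - g (w', q')) ≤ P.valuation L ((p : L) ^ (j + 3)) := by
      intro v hv P hP
      have e1 : g (w, q) - g (w', q') = (p : L) ^ 2 *
          ((((g (w, q) - 1) / (p : L) ^ 2 - (z0 (w, q) : L)) - ((g (w', q') - 1) / (p : L) ^ 2 - (z0 (w', q') : L))) +
            ((z0 (w, q) - z0 (w', q') : 𝓞 L) : L)) := by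
        push_cast
        field_simp
        ring
      have e2 : (p : L) ^ (j + 3) = (p : L) ^ 2 * (p : L) ^ (j + 1) := by ring
      rw [e1, e2, map_mul, map_mul (P.valuation L) ((p : L) ^ 2) ((p : L) ^ (j + 1))]
      refine mul_le_mul_right ?_ _
      refine Valuation.map_add_le _ (Valuation.map_sub_le _ ?_ ?_) (h2 v hv P hP)
      · exact hz0 (w, q) hw v hv P hP
      · exact hz0 (w', q') hw' v hv P hP
    have h4 : ∀ v ∈ Tf, ∀ P : HeightOneSpectrum (𝓞 L), Ab v P →
        P.valuation L (g (w, q) / g (w', q') - 1) ≤ P.valuation L ((p : L) ^ (j + 3)) := by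
      intro v hv P hP
      rw [sub_div _ (hg2 (w', q') hw' v hv P hP)]
      exact h3 v hv P hP
    have h5 := norm_near p hT (j + 3) _ h4
    have hn : ∀ (w : Lˣ) (q : 𝓞 F ⧸ AA Tf ^ j), w ∈ W → Algebra.norm F (g (w, q)) = u q ^ p := by
      intro w q hw
      show Algebra.norm F ((w : L) * algebraMap F L (u q)) = _
      rw [map_mul, hW1 w hw, one_mul, Algebra.norm_algebraMap, hfin]
    have h6 : Algebra.norm F (g (w, q) / g (w', q')) = (u q / u q') ^ p := by
      rw [norm_div, hn w q hw, hn w' q' hw', div_pow]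
    have h7 : ∀ v ∈ Tf, v.valuation F (u q - u q') ≤ v.valuation F ((p : F) ^ (j + 2)) := by
      intro v hv
      have h8 := h5 v hv
      have hq2 : v.valuation F (u q / u q' - 1) = v.valuation F (u q - u q') := sub_div _ (hu2 q' v hv)
      have h9 : v.valuation F (u q / u q' - 1) ≤ v.valuation F ((p : F) ^ 2) := by
        rw [hq2]
        have e1 : u q - u q' = (u q - 1) - (u q' - 1) := by ring
        rw [e1]
        exact Valuation.map_sub_le _ (hu1 q v hv) (hu1 q' v hv)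
      rw [h6, val_pow_sub (v.valuation F) hp.out.ne_zero (val_p_lt v (hT v hv)) h9, hq2,
        show j + 3 = (j + 2) + 1 from rfl, pow_succ, map_mul] at h8
      have h10 : 0 < v.valuation F (p : F) := zero_lt_iff.2 ((Valuation.ne_zero_iff _).2 hpF)
      exact le_of_mul_le_mul_right h8 h10
    have h8 : tt q - tt q' ∈ AA Tf ^ j := by
      rw [mem_AA p Tf hT]
      intro v hv
      have h9 := h7 v hv
      have e1 : u q - u q' = (p : F) ^ 2 * ((tt q - tt q' : 𝓞 F) : F) := by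
        show 1 + (p : F) ^ 2 * (tt q : F) - (1 + (p : F) ^ 2 * (tt q' : F)) = _
        push_cast
        ring
      rw [e1, show j + 2 = 2 + j by ring, pow_add, map_mul, map_mul] at h9
      have h10 : 0 < v.valuation F ((p : F) ^ 2) := zero_lt_iff.2 ((Valuation.ne_zero_iff _).2 (pow_ne_zero _ hpF))
      exact le_of_mul_le_mul_left h9 h10
    have hq : q = q' := by
      rw [← htt q, ← htt q']
      exact Ideal.Quotient.eq.2 h8
    subst hq
    have hw : w = w' := by
      refine hW3 w hw w' hw' ?_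
      intro v hv P hP
      have h9 := h4 v hv P hP
      have hune : algebraMap F L (u q) ≠ 0 := by
        have h10 := one_up hP (hu2 q v hv)
        intro h0
        rw [h0, map_zero] at h10
        exact zero_ne_one h10
      have e1 : g (w, q) / g (w', q) = (w : L) / (w' : L) := by
        show ((w : L) * algebraMap F L (u q)) / ((w' : L) * algebraMap F L (u q)) = _
        exact mul_div_mul_right _ _ hune
      rw [e1] at h9
      exact h9
    subst hw
    rfl
  have hcard := Nat.card_le_card_of_injective Φ hinj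
  rw [Nat.card_prod, c1, c2, Nat.card_eq_fintype_card, Fintype.card_coe] at hcard
  exact hcard

end

end Pool.Agent.Q190.LS.D
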