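import Pool.Agent.Q190.LS.D4

/-! Project LS (helper7), job DEP, part 5: integral vectors which are nearly relations. -/

set_option autoImplicit false
set_option linter.unusedSectionVars false

namespace Pool.Agent.Q190.LS.D

open NumberField IsDedekindDomain Filter Topology Finset
open Pool.Agent.Q7.LK Pool.Agent.Q7.LS

section

variable {F : Type} [Field F] [NumberField F] {L : Type} [Field L] [NumberField L] [Algebra F L]

variable (L) in
/-- the units at `T` which are congruent to `1` modulo `p ^ N` -/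
noncomputable def GN (p : ℕ) (Tf : Finset (HeightOneSpectrum (𝓞 F))) (N : ℕ) : Subgroup Lˣ where
  carrier := {x | ∀ v ∈ Tf, ∀ P : HeightOneSpectrum (𝓞 L), Ab v P → P.valuation L ((x : Lˣ) : L) = 1 ∧
    P.valuation L (((x : Lˣ) : L) - 1) ≤ P.valuation L ((p : L) ^ N)}
  one_mem' := by
    intro v _ P _
    constructor
    · simp
    · simp
  mul_mem' := by
    intro x y hx hy v hv P hP
    obtain ⟨h1, h2⟩ := hx v hv P hP
    obtain ⟨h3, h4⟩ := hy v hv P hP
    constructor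
    · rw [Units.val_mul, map_mul, h1, h3, one_mul]
    · have e1 : ((x * y : Lˣ) : L) - 1 = ((x : L) - 1) * (y : L) + ((y : L) - 1) := by
        push_cast
        ring
      rw [e1]
      refine Valuation.map_add_le _ ?_ h4
      rw [map_mul, h3, mul_one]
      exact h2
  inv_mem' := by
    intro x hx v hv P hP
    obtain ⟨h1, h2⟩ := hx v hv P hP
    constructor
    · rw [Units.val_inv_eq_inv_val, map_inv₀, h1, inv_one]
    · have e1 : ((x⁻¹ : Lˣ) : L) - 1 = -(((x : L) - 1) * ((x⁻¹ : Lˣ) : L)) := by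
        have h5 : (x : L) * ((x⁻¹ : Lˣ) : L) = 1 := Units.mul_inv x
        linear_combination h5
      rw [e1, Valuation.map_neg, map_mul, Units.val_inv_eq_inv_val, map_inv₀, h1, inv_one, mul_one]
      exact h2

theorem mem_GN {p : ℕ} {Tf : Finset (HeightOneSpectrum (𝓞 F))} {N : ℕ} {x : Lˣ} : x ∈ GN L p Tf N ↔
    ∀ v ∈ Tf, ∀ P : HeightOneSpectrum (𝓞 L), Ab v P → P.valuation L ((x : Lˣ) : L) = 1 ∧
      P.valuation L (((x : Lˣ) : L) - 1) ≤ P.valuation L ((p : L) ^ N) := Iff.rfl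

theorem GN_anti {p : ℕ} {Tf : Finset (HeightOneSpectrum (𝓞 F))} (hT : ∀ v ∈ Tf, Dp p v) {N M : ℕ} (h : N ≤ M) :
    GN L p Tf M ≤ GN L p Tf N := by
  intro x hx v hv P hP
  obtain ⟨h1, h2⟩ := hx v hv P hP
  refine ⟨h1, h2.trans ?_⟩
  rw [map_pow, map_pow]
  exact pow_le_pow_right_of_le_one' (val_p_lt P (Dp_up hP (hT v hv))).le h

theorem prod_pow_sub {n : ℕ} (x : Fin n → Lˣ) (b b' : Fin n → ℤ) :
    ∏ i, x i ^ (b i - b' i) = (∏ i, x i ^ b i) / ∏ i, x i ^ b' i := by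
  rw [← prod_div_distrib]
  exact prod_congr rfl fun i _ => zpow_sub _ _ _

theorem norm_prod_zpow {n : ℕ} (x : Fin n → Lˣ) (hx : ∀ i, Algebra.norm F ((x i : Lˣ) : L) = 1) (b : Fin n → ℤ) :
    Algebra.norm F ((∏ i, x i ^ b i : Lˣ) : L) = 1 := by
  have h1 : ∀ i, x i ∈ (nmU F : Lˣ →* Fˣ).ker := by
    intro i
    rw [MonoidHom.mem_ker]
    exact Units.ext (hx i)
  have h2 : (∏ i, x i ^ b i) ∈ (nmU F : Lˣ →* Fˣ).ker :=
    Subgroup.prod_mem _ fun i _ => Subgroup.zpow_mem _ (h1 i) _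
  rw [MonoidHom.mem_ker] at h2
  exact congrArg (fun u : Fˣ => (u : F)) h2

/-- a `p`-th root of an element near `1` -/
theorem root {p : ℕ} [hp : Fact p.Prime] {Tf : Finset (HeightOneSpectrum (𝓞 F))} (hT : ∀ v ∈ Tf, Dp p v) {N : ℕ}
    {y : Lˣ} (hy : y ∈ GN L p Tf 2) (h : y ^ p ∈ GN L p Tf (N + 1)) : y ∈ GN L p Tf N := by
  intro v hv P hP
  obtain ⟨h1, h2⟩ := hy v hv P hP
  obtain ⟨_, h4⟩ := h v hv P hP
  refine ⟨h1, ?_⟩
  have hpL : (p : L) ≠ 0 := Nat.cast_ne_zero.2 hp.out.ne_zero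
  have h5 := val_pow_sub (P.valuation L) hp.out.ne_zero (val_p_lt P (Dp_up hP (hT v hv))) h2
  rw [Units.val_pow_eq_pow_val, h5, pow_succ, map_mul] at h4
  have h10 : 0 < P.valuation L (p : L) := zero_lt_iff.2 ((Valuation.ne_zero_iff _).2 hpL)
  exact le_of_mul_le_mul_right h4 h10

theorem claim {p : ℕ} [hp : Fact p.Prime] {Tf : Finset (HeightOneSpectrum (𝓞 F))} (hT : ∀ v ∈ Tf, Dp p v) {n : ℕ}
    (x : Fin n → Lˣ) (hx : ∀ i, x i ∈ GN L p Tf 2) (N1 : ℕ)
    (hb : ∀ b : Fin n → ℤ, ∏ i, x i ^ b i ∈ GN L p Tf N1 → ∀ i, (p : ℤ) ∣ b i) (k : ℕ) :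
    ∀ b : Fin n → ℤ, ∏ i, x i ^ b i ∈ GN L p Tf (N1 + k) → ∀ i, ((p ^ k : ℕ) : ℤ) ∣ b i := by
  induction k with
  | zero =>
    intro b _ i
    simp
  | succ k ih =>
    intro b h i
    have h1 : ∀ i, (p : ℤ) ∣ b i := hb b (GN_anti hT (by omega) h)
    choose c hc using h1
    have h2 : ∏ i, x i ^ b i = (∏ i, x i ^ c i) ^ p := by
      rw [← prod_pow]
      refine prod_congr rfl fun i _ => ?_
      rw [hc i, mul_comm, zpow_mul, zpow_natCast]
    have h3 : ∏ i, x i ^ c i ∈ GN L p Tf 2 := Subgroup.prod_mem _ fun i _ => Subgroup.zpow_mem _ (hx i) _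
    rw [h2] at h
    have h4 := ih c (root hT h3 h) i
    rw [hc i, pow_succ, Nat.cast_mul, mul_comm]
    exact mul_dvd_mul_left _ h4

/-- integral vectors, not divisible by `p`, which are nearly relations -/
theorem exists_b {p : ℕ} [hp : Fact p.Prime] (hfin : Module.finrank F L = p)
    {Tf : Finset (HeightOneSpectrum (𝓞 F))} (hT : ∀ v ∈ Tf, Dp p v) {n : ℕ}
    (x : Fin n → Lˣ) (hx : ∀ i, x i ∈ GN L p Tf 2) (hx1 : ∀ i, Algebra.norm F ((x i : Lˣ) : L) = 1)
    (hn : (p - 1) * (∑ v ∈ Tf, dv p v) < n) (N : ℕ) :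
    ∃ b : Fin n → ℤ, ∏ i, x i ^ b i ∈ GN L p Tf N ∧ ∃ i, ¬ (p : ℤ) ∣ b i := by
  classical
  by_contra hcon
  push Not at hcon
  set D := ∑ v ∈ Tf, dv p v with hD
  have hb : ∀ b : Fin n → ℤ, ∏ i, x i ^ b i ∈ GN L p Tf (N + 3) → ∀ i, (p : ℤ) ∣ b i := fun b h =>
    hcon b (GN_anti hT (by omega) h)
  set k := p * ((N + 1) * D) + 1 with hk
  have hcl := claim hT x hx (N + 3) hb k
  let f : (Fin n → Fin (p ^ k)) → Lˣ := fun b => ∏ i, x i ^ ((b i : ℕ) : ℤ)
  have hdiv : ∀ b b' : Fin n → Fin (p ^ k), f b / f b' ∈ GN L p Tf (N + 3 + k) → b = b' := by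
    intro b b' h
    have h1 : f b / f b' = ∏ i, x i ^ (((b i : ℕ) : ℤ) - ((b' i : ℕ) : ℤ)) :=
      (prod_pow_sub x (fun i => ((b i : ℕ) : ℤ)) (fun i => ((b' i : ℕ) : ℤ))).symm
    rw [h1] at h
    funext i
    have h2 := hcl (fun i => (((b i : ℕ) : ℤ) - ((b' i : ℕ) : ℤ))) h i
    have h3 : ((b i : ℕ) : ℤ) - ((b' i : ℕ) : ℤ) = 0 := by
      apply Int.eq_zero_of_abs_lt_dvd h2
      have h4 := (b i).2
      have h5 := (b' i).2
      rw [abs_lt]
      constructor <;> omega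
    apply Fin.ext
    omega
  have hfi : Function.Injective f := by
    intro b b' h
    refine hdiv b b' ?_
    rw [h, div_self']
    exact Subgroup.one_mem _
  have hmem2 : ∀ b, f b ∈ GN L p Tf 2 := fun b => Subgroup.prod_mem _ fun i _ => Subgroup.zpow_mem _ (hx i) _
  have hMC := MC p hfin hT (N + k) (univ.image f) (by
      intro w hw
      obtain ⟨b, _, rfl⟩ := mem_image.1 hw
      exact norm_prod_zpow x hx1 _)
    (by
      intro w hw v hv P hP
      obtain ⟨b, _, rfl⟩ := mem_image.1 hw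
      exact ((hmem2 b) v hv P hP).2)
    (by
      intro w hw w' hw' h
      obtain ⟨b, _, rfl⟩ := mem_image.1 hw
      obtain ⟨b', _, rfl⟩ := mem_image.1 hw'
      have h1 : f b / f b' ∈ GN L p Tf (N + 3 + k) := by
        intro v hv P hP
        constructor
        · have h2 := (Subgroup.div_mem _ (hmem2 b) (hmem2 b')) v hv P hP
          exact h2.1
        · have h2 := h v hv P hP
          rw [show N + k + 3 = N + 3 + k by ring] at h2
          rw [Units.val_div_eq_div_val]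
          exact h2
      rw [hdiv b b' h1])
  rw [card_image_of_injective _ hfi, card_univ, Fintype.card_pi, ] at hMC
  simp only [Fintype.card_fin, prod_const, card_univ] at hMC
  rw [← hD, ← pow_mul, ← pow_add, Nat.pow_le_pow_iff_right hp.out.one_lt] at hMC
  have hp1 : 1 ≤ p := hp.out.one_le
  obtain ⟨q, rfl⟩ : ∃ q, p = q + 1 := ⟨p - 1, by omega⟩
  rw [Nat.add_sub_cancel] at hn
  have h1 : k * (q * D + 1) ≤ k * n := Nat.mul_le_mul_left _ hn
  have h2 : k * (q * D + 1) + (N + k) * D ≤ (q + 1) * ((N + k + 1) * D) := le_trans (by omega) hMC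
  have h3 : k * (q * D + 1) + (N + k) * D = k * q * D + k + N * D + k * D := by ring
  have h4 : (q + 1) * ((N + k + 1) * D) = (q + 1) * ((N + 1) * D) + k * q * D + k * D := by ring
  rw [h3, h4] at h2
  have h5 : k ≤ (q + 1) * ((N + 1) * D) := by
    have := Nat.zero_le (N * D)
    omega
  omega

end

end Pool.Agent.Q190.LS.D
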