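import Pool.Agent.Q190.LS.D5

/-! Project LS (helper7), job DEP: dependent elements of norm `1`. -/

set_option autoImplicit false
set_option linter.unusedSectionVars false

namespace Pool.Agent.Q190.LS

open NumberField IsDedekindDomain Filter Topology Finset
open Pool.Agent.Q7.LK Pool.Agent.Q7.LS Pool.Agent.Q190.LS.D

section

variable {F : Type} [Field F] [NumberField F] {L : Type} [Field L] [NumberField L] [Algebra F L]

/-- a power of a unit at `T` is near `1` -/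
theorem exists_h1 (p : ℕ) [hp : Fact p.Prime] {Tf : Finset (HeightOneSpectrum (𝓞 F))} (hT : ∀ v ∈ Tf, Dp p v)
    (x : Lˣ) (hx : ∀ v ∈ Tf, Un v (x : L)) : ∃ h : ℕ, 0 < h ∧ x ^ h ∈ GN L p Tf 2 := by
  classical
  have hx1 : ∀ m : ℕ, ∀ v ∈ Tf, ∀ P : HeightOneSpectrum (𝓞 L), Ab v P → P.valuation L ((x : L) ^ m) = 1 := by
    intro m v hv P hP
    rw [map_pow, hx v hv P hP, one_pow]
  choose z hz using fun m : ℕ => approx p hT 2 ((x : L) ^ m) (fun v hv P hP => (hx1 m v hv P hP).le)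
  have hne : (AA Tf ^ 2).map (algebraMap (𝓞 F) (𝓞 L)) ≠ ⊥ := by
    rw [Ne, Ideal.map_eq_bot_iff_of_injective (FaithfulSMul.algebraMap_injective (𝓞 F) (𝓞 L))]
    exact pow_ne_zero _ (AA_ne Tf)
  have hf : Finite (𝓞 L ⧸ (AA Tf ^ 2).map (algebraMap (𝓞 F) (𝓞 L))) := Ideal.finiteQuotientOfFreeOfNeBot _ hne
  obtain ⟨m, m', hmm, hq⟩ := Finite.exists_ne_map_eq_of_infinite
    (fun m : ℕ => Ideal.Quotient.mk ((AA Tf ^ 2).map (algebraMap (𝓞 F) (𝓞 L))) (z m))
  have key : ∀ m m' : ℕ, m < m' → Ideal.Quotient.mk ((AA Tf ^ 2).map (algebraMap (𝓞 F) (𝓞 L))) (z m') =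
      Ideal.Quotient.mk ((AA Tf ^ 2).map (algebraMap (𝓞 F) (𝓞 L))) (z m) → ∃ h : ℕ, 0 < h ∧ x ^ h ∈ GN L p Tf 2 := by
    intro m m' hlt hq
    refine ⟨m' - m, by omega, ?_⟩
    intro v hv P hP
    constructor
    · rw [Units.val_pow_eq_pow_val]
      exact hx1 _ v hv P hP
    · have h1 : z m' - z m ∈ (AA Tf ^ 2).map (algebraMap (𝓞 F) (𝓞 L)) := Ideal.Quotient.eq.1 hq
      have h2 := map_AA p hT 2 _ h1 v hv P hP
      have h3 : P.valuation L ((x : L) ^ m' - (x : L) ^ m) ≤ P.valuation L ((p : L) ^ 2) := by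
        have e1 : (x : L) ^ m' - (x : L) ^ m = (((x : L) ^ m' - (z m' : L)) - ((x : L) ^ m - (z m : L))) +
            ((z m' - z m : 𝓞 L) : L) := by
          push_cast
          ring
        rw [e1]
        exact Valuation.map_add_le _ (Valuation.map_sub_le _ (hz m' v hv P hP) (hz m v hv P hP)) h2
      have e2 : (x : L) ^ m' - (x : L) ^ m = (x : L) ^ m * ((((x ^ (m' - m) : Lˣ) : Lˣ) : L) - 1) := by
        rw [Units.val_pow_eq_pow_val, mul_sub, mul_one, ← pow_add, Nat.add_sub_cancel' hlt.le]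
      rw [e2, map_mul, hx1 m v hv P hP, one_mul] at h3
      exact h3
  rcases lt_or_gt_of_ne hmm with h | h
  · exact key m m' h hq.symm
  · exact key m' m h hq

theorem exists_h (p : ℕ) [hp : Fact p.Prime] {Tf : Finset (HeightOneSpectrum (𝓞 F))} (hT : ∀ v ∈ Tf, Dp p v)
    {n : ℕ} (θ : Fin n → Lˣ) (hθ : ∀ i, ∀ v ∈ Tf, Un v ((θ i : Lˣ) : L)) :
    ∃ h : ℕ, 0 < h ∧ ∀ i, θ i ^ h ∈ GN L p Tf 2 := by
  choose h h0 h1 using fun i => exists_h1 p hT (θ i) (hθ i)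
  refine ⟨∏ i, h i, prod_pos fun i _ => h0 i, fun i => ?_⟩
  obtain ⟨c, hc⟩ := dvd_prod_of_mem h (mem_univ i)
  rw [hc, pow_mul]
  exact Subgroup.pow_mem _ (h1 i) _

end

/-- JOB DEP -/
theorem dep : S_DEP := by
  intro p hp _ F L _ _ _ _ _ hfin T hT n θ hθ hn
  classical
  have hTfin : T.Finite := (fin_Dp (F := F) p).subset hT
  set Tf := hTfin.toFinset with hTf
  have hmem : ∀ v, v ∈ Tf ↔ v ∈ T := fun v => Set.Finite.mem_toFinset _
  have hTp : ∀ v ∈ Tf, Dp p v := fun v hv => hT v ((hmem v).1 hv)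
  rw [dT_eq p hTfin, ← hTf] at hn
  obtain ⟨h, h0, hh⟩ := exists_h p hTp θ (fun i v hv => (hθ i).2 v ((hmem v).1 hv))
  have hx1 : ∀ i, Algebra.norm F ((θ i ^ h : Lˣ) : L) = 1 := by
    intro i
    rw [Units.val_pow_eq_pow_val, map_pow, (hθ i).1, one_pow]
  choose b hb1 hb2 using exists_b hfin hTp (fun i => θ i ^ h) hh hx1 hn
  let B : ℕ → Fin n → ℤ_[p] := fun k i => ((b k i : ℤ) : ℤ_[p])
  obtain ⟨a, φ, hφ, hlim⟩ := CompactSpace.tendsto_subseq B
  have hlim' : ∀ i, Tendsto (fun k => B (φ k) i) atTop (𝓝 (a i)) := fun i => (tendsto_pi_nhds.1 hlim) i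
  have ha : a ≠ 0 := by
    intro h1
    have h2 : ∀ i, ∀ᶠ k in atTop, ‖B (φ k) i‖ < 1 := by
      intro i
      have h3 := hlim' i
      rw [h1, Pi.zero_apply] at h3
      have h4 := h3.norm
      rw [norm_zero] at h4
      exact h4.eventually_lt_const one_pos
    obtain ⟨k, hk⟩ := (eventually_all.2 h2).exists
    obtain ⟨i, hi⟩ := hb2 (φ k)
    exact hi (PadicInt.norm_int_lt_one_iff_dvd (b (φ k) i) |>.1 (hk i))
  refine ⟨fun i => (h : ℤ_[p]) * a i, ?_, fun k i => (h : ℤ) * b (φ k) i, ?_, ?_⟩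
  · intro h1
    refine ha ?_
    funext i
    have h2 := congrFun h1 i
    have h3 : (h : ℤ_[p]) ≠ 0 := Nat.cast_ne_zero.2 h0.ne'
    exact (mul_eq_zero.1 h2).resolve_left h3
  · intro i
    have h1 : (fun k => (((h : ℤ) * b (φ k) i : ℤ) : ℤ_[p])) = fun k => (h : ℤ_[p]) * B (φ k) i := by
      funext k
      push_cast
      rfl
    rw [h1]
    exact (hlim' i).const_mul _
  · intro N
    filter_upwards [eventually_ge_atTop N] with k hk v hv P hP
    have h1 : ∏ i, θ i ^ ((h : ℤ) * b (φ k) i) = ∏ i, (θ i ^ h) ^ b (φ k) i := by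
      refine prod_congr rfl fun i _ => ?_
      rw [zpow_mul, zpow_natCast]
    rw [h1]
    have h2 : N ≤ φ k := hk.trans (hφ.id_le k)
    exact ((GN_anti hTp h2) (hb1 (φ k)) v ((hmem v).2 hv) P hP).2

end Pool.Agent.Q190.LS
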