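import Pool.Agent.Q7.LS.Stm
import Pool.Agent.TeamU.B1

/-! Project LS (helper7), job SUR: the theorem on `S`-units. -/

set_option autoImplicit false

namespace Pool.Agent.Q190.LS

open NumberField IsDedekindDomain
open Pool.Agent.Q7.LS

theorem sur : S_SUR := by
  intro K _ _ P hP
  refine ⟨Pool.Agent.TeamU.SU hP.toFinset, ?_, ?_, ?_⟩
  · intro x
    rw [Pool.Agent.TeamU.mem_SU_iff]
    simp only [Set.Finite.mem_toFinset]
  · have h := Pool.Agent.TeamU.su_fg hP.toFinset
    exact (GroupFG.iff_add_fg).2 (Module.Finite.iff_addGroup_fg.1 h)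
  · rw [Pool.Agent.TeamU.su_rank, Set.ncard_eq_toFinset_card P hP, Units.rank,
      ← InfinitePlace.card_eq_nrRealPlaces_add_nrComplexPlaces]

end Pool.Agent.Q190.LS
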